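import Pool.Agent.H878.Levy16

/-!
A Levy group with an action of Type II infinity.

The group is `G = E ⧸ N`, where `E` is the `ℓ¹`-sum of finite elementary abelian `2`-groups
`K_j` with the norms `ε_j √(Hamming weight)`, and `N` is a discrete subgroup which identifies each
`K_j` with a Hadamard-type subgroup of `K_{j+1}`.  It acts on a Borel fundamental domain of `N` in
an `E`-invariant Borel subset of `∏ K_j`, and preserves the restriction of a restricted infinite
product of counting measures, normalised on Hamming balls.
-/

open MeasureTheory Filter Topology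

namespace Pool.Agent.Results.MP_9152e2_an.LevyTypeTwoInf

/-- `m` is the normalised Haar measure of the subgroup `K`, viewed as a Borel measure on `G` -/
def IsHaarProb {G : Type} [Group G] [MeasurableSpace G] (K : Subgroup G) (m : Measure G) : Prop :=
  IsProbabilityMeasure m ∧ m (K : Set G)ᶜ = 0 ∧ ∀ g ∈ K, m.map (fun x => g * x) = m

/-- `G` is a Levy group: a Polish group with an increasing sequence of compact subgroups with dense
union which, for a compatible right-invariant metric and their normalised Haar measures, form a
Levy family -/
def IsLevyGroup (G : Type) [Group G] [τ : TopologicalSpace G] [MeasurableSpace G] : Prop :=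
  IsTopologicalGroup G ∧ PolishSpace G ∧ BorelSpace G ∧
    ∃ (K : ℕ → Subgroup G) (d : MetricSpace G) (m : ℕ → Measure G),
      Monotone K ∧ (∀ n, IsCompact (K n : Set G)) ∧ Dense (⋃ n, (K n : Set G)) ∧
      d.toUniformSpace.toTopologicalSpace = τ ∧
      (∀ x y g : G, d.dist (x * g) (y * g) = d.dist x y) ∧
      (∀ n, IsHaarProb (K n) (m n)) ∧
      ∀ A : ℕ → Set G, (∀ n, MeasurableSet (A n)) → (∀ n, A n ⊆ K n) →
        0 < liminf (fun n => m n (A n)) atTop →
        ∀ ε : ℝ, 0 < ε → Tendsto (fun n => m n {x | ∃ y ∈ A n, d.dist x y < ε}) atTop (𝓝 1)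

/-- a spatial action of `G` on the standard Borel space `X` which preserves the infinite
non-atomic `σ`-finite measure `μ` -/
def IsSpatialInfinitePreserving (G X : Type) [Group G] [MeasurableSpace G] [MeasurableSpace X]
    [MulAction G X] (μ : Measure X) : Prop :=
  StandardBorelSpace X ∧ Measurable (fun p : G × X => p.1 • p.2) ∧
    μ Set.univ = ⊤ ∧ SigmaFinite μ ∧ (∀ x, μ {x} = 0) ∧ ∀ g : G, μ.map (fun x => g • x) = μ

/-- every invariant Borel set is null or conull -/
def IsErgodic (G X : Type) [Group G] [MeasurableSpace X] [MulAction G X] (μ : Measure X) : Prop :=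
  ∀ A : Set X, MeasurableSet A → (∀ g : G, (fun x => g • x) ⁻¹' A = A) → μ A = 0 ∨ μ Aᶜ = 0

/-- Type II infinity: spatial, ergodic, preserving an infinite `σ`-finite non-atomic measure -/
def IsTypeIIInf (G X : Type) [Group G] [MeasurableSpace G] [MeasurableSpace X]
    [MulAction G X] (μ : Measure X) : Prop :=
  IsSpatialInfinitePreserving G X μ ∧ IsErgodic G X μ

open H878L in
/-- **Some Levy group, even an abelian one, admits an action of Type II infinity.** -/
theorem result : ∃ (G : Type) (_ : CommGroup G) (_ : TopologicalSpace G) (_ : MeasurableSpace G)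
    (X : Type) (_ : MeasurableSpace X) (_ : MulAction G X) (μ : Measure X),
    IsLevyGroup G ∧ IsTypeIIInf G X μ := by
  let act : MulAction (Multiplicative GG) XX :=
    { smul := fun g x => actG g.toAdd x
      one_smul := fun x => actG_zero x
      mul_smul := fun g h x => actG_add g.toAdd h.toAdd x }
  let ms : MeasurableSpace (Multiplicative GG) := (inferInstance : MeasurableSpace GG)
  have hbs : BorelSpace (Multiplicative GG) := (inferInstance : BorelSpace GG)
  refine ⟨Multiplicative GG, inferInstance, inferInstance, ms, XX, inferInstance, act, tX lam, ?_, ?_⟩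
  · refine ⟨inferInstance, (inferInstance : PolishSpace GG), hbs,
      fun n => AddSubgroup.toSubgroup (Kn n), (inferInstance : MetricSpace GG), mG, ?_, ?_, ?_, rfl,
      ?_, ?_, ?_⟩
    · intro a b hab x hx
      exact Kn_mono hab hx
    · intro n
      exact (Kn_finite n).isCompact
    · exact Kn_dense
    · intro x y g
      exact dist_add_right (M := GG) x y g
    · intro n
      refine ⟨inferInstanceAs (IsProbabilityMeasure (mG n)), mG_supp n, fun g hg => mG_inv n hg⟩
    · intro A hA _ hlim ε hε
      exact levy_main A hA hlim hε
  · refine ⟨⟨inferInstance, actG_meas, tX_infinite, inferInstance, ?_, ?_⟩, ?_⟩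
    · intro x
      rw [tX_apply, Set.image_singleton]
      exact lam_atom _
    · intro g
      exact tX_inv _
    · intro A hA hinv
      refine erg_of lam_01 hA ?_
      intro g x hx
      have := hinv (Multiplicative.ofAdd g)
      rw [← this] at hx
      exact hx

end Pool.Agent.Results.MP_9152e2_an.LevyTypeTwoInf
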